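import Mathlib

open Matrix

namespace Pool.Agent.Results.MP_5f6a82_al.OreLSRC

/-- `δ` is a `σ`-derivation. -/
def IsSigmaDer {R : Type} [Ring R] (σ : R →+* R) (δ : R →+ R) : Prop :=
  ∀ r s, δ (r * s) = δ r * s + σ r * δ s

/-- `S`, with the map `ι : R → S` and the element `x`, is the Ore extension `R[x; σ, δ]`: every
element of `S` is uniquely a finite sum `∑ ι (r i) * x ^ i`, and `x r = σ(r) x + δ(r)`. -/
def IsOreExtension {R S : Type} [Ring R] [Ring S] (σ : R →+* R) (δ : R →+ R) (ι : R →+* S)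
    (x : S) : Prop :=
  (Function.Bijective fun c : ℕ →₀ R => c.sum fun i r => ι r * x ^ i) ∧
    ∀ r, x * ι r = ι (σ r) * x + ι (δ r)

/-- The left strong rank condition. -/
def LSRC (A : Type) [Ring A] : Prop :=
  ∀ n : ℕ, 1 ≤ n → ∀ f : (Fin (n + 1) → A) →ₗ[A] (Fin n → A), ¬ Function.Injective f

/-- The free algebra on `y 0, y 1, …`. -/
abbrev Fr : Type := FreeAlgebra ℚ ℕ

/-- The shift `y 0 ↦ 0`, `y (i + 1) ↦ y i`. -/
noncomputable def sh : Fr →ₐ[ℚ] Fr :=
  FreeAlgebra.lift ℚ fun i => Nat.casesOn i 0 fun j => FreeAlgebra.ι ℚ j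

lemma sh_surj : Function.Surjective sh := by
  intro r
  refine ⟨FreeAlgebra.lift ℚ (fun i => FreeAlgebra.ι ℚ (i + 1)) r, ?_⟩
  have : sh.comp (FreeAlgebra.lift ℚ (fun i => FreeAlgebra.ι ℚ (i + 1))) = AlgHom.id ℚ Fr := by
    ext i; simp [sh]
  exact AlgHom.congr_fun this r

lemma sh_eventually (r : Fr) : ∃ c : ℚ, ∃ N : ℕ, ∀ m, N ≤ m → (sh ^ m) r = algebraMap ℚ Fr c := by
  induction r using FreeAlgebra.induction with
  | grade0 c => exact ⟨c, 0, fun m _ => by simp⟩
  | grade1 i =>
    refine ⟨0, i + 1, ?_⟩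
    induction i with
    | zero =>
      intro m hm
      obtain ⟨m, rfl⟩ : ∃ k, m = k + 1 := ⟨m - 1, by omega⟩
      rw [pow_succ, AlgHom.mul_apply]; simp [sh]
    | succ i ih =>
      intro m hm
      obtain ⟨m, rfl⟩ : ∃ k, m = k + 1 := ⟨m - 1, by omega⟩
      rw [pow_succ, AlgHom.mul_apply, ← ih m (by omega)]; simp [sh]
  | mul a b ha hb =>
    obtain ⟨c, N, h1⟩ := ha
    obtain ⟨d, M, h2⟩ := hb
    exact ⟨c * d, max N M, fun m hm => by
      rw [map_mul, h1 m (le_of_max_le_left hm), h2 m (le_of_max_le_right hm), map_mul]⟩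
  | add a b ha hb =>
    obtain ⟨c, N, h1⟩ := ha
    obtain ⟨d, M, h2⟩ := hb
    exact ⟨c + d, max N M, fun m hm => by
      rw [map_add, h1 m (le_of_max_le_left hm), h2 m (le_of_max_le_right hm), map_add]⟩

lemma not_LSRC : ¬ LSRC Fr := by
  intro h
  have key : ∀ (i : ℕ), ∃ D : Fr →+ Fr, ∀ a j,
      D (a * FreeAlgebra.ι ℚ j) = if j = i then a else 0 := by
    intro i
    let ψ : Fr →ₐ[ℚ] Matrix (Fin 2) (Fin 2) Fr :=
      FreeAlgebra.lift ℚ fun j => !![FreeAlgebra.ι ℚ j, if j = i then 1 else 0; 0, 0]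
    have h1 : ∀ a, ψ a 0 0 = a ∧ ψ a 1 0 = 0 := by
      intro a
      induction a using FreeAlgebra.induction with
      | grade0 c => simp [Matrix.algebraMap_matrix_apply]
      | grade1 j => simp [ψ]
      | mul a b ha hb => simp [Matrix.mul_apply, ha, hb]
      | add a b ha hb => simp [ha, hb]
    refine ⟨{ toFun := fun a => ψ a 0 1, map_zero' := by simp, map_add' := by simp }, ?_⟩
    intro a j
    simp only [AddMonoidHom.coe_mk, ZeroHom.coe_mk, map_mul, Matrix.mul_apply, Fin.sum_univ_two,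
      (h1 a).1]
    simp [ψ]
  let f : (Fin 2 → Fr) →ₗ[Fr] (Fin 1 → Fr) :=
    { toFun := fun v _ => v 0 * FreeAlgebra.ι ℚ 0 + v 1 * FreeAlgebra.ι ℚ 1
      map_add' := fun v w => by ext; simp [add_mul]; abel
      map_smul' := fun c v => by ext; simp [mul_add, mul_assoc] }
  refine h 1 le_rfl f ?_
  rw [injective_iff_map_eq_zero]
  intro v hv
  have h0 : v 0 * FreeAlgebra.ι ℚ 0 + v 1 * FreeAlgebra.ι ℚ 1 = 0 := congrFun hv 0
  obtain ⟨D0, hD0⟩ := key 0
  obtain ⟨D1, hD1⟩ := key 1
  have a0 := congrArg D0 h0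
  have a1 := congrArg D1 h0
  rw [map_add, hD0, hD0, map_zero] at a0
  rw [map_add, hD1, hD1, map_zero] at a1
  ext i; fin_cases i
  · simpa using a0
  · simpa using a1

open Polynomial in
lemma lsrc {S : Type} [Ring S] (ι : Fr →+* S) (x : S)
    (h : IsOreExtension (sh : Fr →+* Fr) 0 ι x) : LSRC S := by
  classical
  obtain ⟨hb, hx⟩ := h
  have hx' : ∀ r, x * ι r = ι (sh r) * x := fun r => by simpa using hx r
  have hpow : ∀ m r, x ^ m * ι r = ι ((sh ^ m) r) * x ^ m := by
    intro m
    induction m with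
    | zero => simp
    | succ m ih =>
      intro r
      rw [pow_succ, mul_assoc, hx', ← mul_assoc, ih, pow_succ, AlgHom.mul_apply, mul_assoc]
  let φ : ℚ[X] →+* S := eval₂RingHom' (ι.comp (algebraMap ℚ Fr)) x (fun c => by
    show ι _ * x = x * ι _
    rw [hx']; simp)
  have hφC : ∀ c, φ (C c) = ι (algebraMap ℚ Fr c) := fun c => by simp [φ]
  have hφX : φ X = x := by simp [φ]
  have hφ : Function.Injective φ := by
    rw [injective_iff_map_eq_zero]
    intro p hp
    let c : ℕ →₀ Fr := Finsupp.onFinset p.support (fun i => algebraMap ℚ Fr (p.coeff i))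
      (fun i hi => mem_support_iff.2 fun h0 => hi (by rw [h0, map_zero]))
    have h1 : c = 0 := hb.1 (by
      simp only [Finsupp.sum_zero_index]
      rw [Finsupp.onFinset_sum _ (by simp), ← hp]
      conv_rhs => rw [p.as_sum_support_C_mul_X_pow, map_sum]
      simp only [map_mul, map_pow, hφC, hφX])
    ext i
    have h2 : algebraMap ℚ Fr (p.coeff i) = 0 := DFunLike.congr_fun h1 i
    simpa using h2
  have hev : ∀ s : S, ∃ p : ℚ[X], ∃ N : ℕ, ∀ m, N ≤ m → x ^ m * s = x ^ m * φ p := by
    intro s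
    obtain ⟨c, rfl⟩ := hb.2 s
    induction c using Finsupp.induction_linear with
    | zero => exact ⟨0, 0, by simp⟩
    | add a b ha hb =>
      obtain ⟨p, N, h1⟩ := ha
      obtain ⟨q, M, h2⟩ := hb
      refine ⟨p + q, max N M, fun m hm => ?_⟩
      simp only at h1 h2 ⊢
      rw [Finsupp.sum_add_index' (by simp) (by simp [add_mul]), mul_add,
        h1 m (le_of_max_le_left hm), h2 m (le_of_max_le_right hm), map_add, mul_add]
    | single i r =>
      obtain ⟨c, N, h1⟩ := sh_eventually r
      refine ⟨C c * X ^ i, N, fun m hm => ?_⟩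
      simp only
      rw [Finsupp.sum_single_index (by simp), map_mul, map_pow, hφC, hφX, ← mul_assoc,
        ← mul_assoc, hpow, hpow, h1 m hm]
      simp
  intro n _ f hf
  choose P N hP using hev
  let M : Matrix (Fin (n + 1)) (Fin n) S := fun a b => f (Pi.single a 1) b
  let m : ℕ := Finset.univ.sup fun p : Fin (n + 1) × Fin n => N (M p.1 p.2)
  have hm : ∀ a b, x ^ m * M a b = x ^ m * φ (P (M a b)) := fun a b =>
    hP _ _ (Finset.le_sup (f := fun p : Fin (n + 1) × Fin n => N (M p.1 p.2))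
      (Finset.mem_univ (a, b)))
  let Q : Matrix (Fin (n + 1)) (Fin n) ℚ[X] := fun a b => P (M a b)
  have hni := (strongRankCondition_iff_succ ℚ[X]).1 inferInstance n Q.vecMulLinear
  rw [injective_iff_map_eq_zero] at hni
  push Not at hni
  obtain ⟨u, hu, hu0⟩ := hni
  apply hu0
  have hv : f (fun a => φ (u a) * x ^ m) = 0 := by
    rw [LinearMap.pi_apply_eq_sum_univ]
    ext b
    have hb : ∑ a, u a * P (M a b) = 0 := congrFun hu b
    have e : ∀ a : Fin (n + 1), (fun j => if a = j then (1 : S) else 0) = Pi.single a 1 := fun a => by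
      ext j; simp [Pi.single_apply, eq_comm]
    simp only [e, Finset.sum_apply, Pi.smul_apply, smul_eq_mul, Pi.zero_apply]
    have : ∀ a, φ (u a) * x ^ m * f (Pi.single a 1) b = φ (X ^ m * (u a * P (M a b))) := by
      intro a
      rw [mul_assoc, hm a b, ← hφX, ← map_pow, ← map_mul, ← map_mul]
      congr 1; ring
    simp only [this, ← map_sum, ← Finset.mul_sum, hb, mul_zero, map_zero]
  have hv0 := hf (hv.trans (map_zero f).symm)
  ext1 a
  have h1 : φ (u a * X ^ m) = φ 0 := by
    rw [map_mul, map_pow, hφX, map_zero]; exact congrFun hv0 a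
  simpa using hφ h1

theorem result : ∃ (R S : Type) (_ : Ring R) (_ : Ring S) (σ : R →+* R) (δ : R →+ R)
    (ι : R →+* S) (x : S), Function.Surjective σ ∧ IsSigmaDer σ δ ∧ IsOreExtension σ δ ι x ∧
      LSRC S ∧ ¬ LSRC R := by
  letI : MulSemiringAction (Multiplicative ℕ) Fr :=
    MulSemiringAction.compHom Fr (powersHom (Fr →+* Fr) (sh : Fr →+* Fr))
  have hO : IsOreExtension (sh : Fr →+* Fr) 0 (SkewPolynomial.CRingHom (R := Fr))
      SkewPolynomial.X := by
    constructor
    · have e : ∀ (c : ℕ →₀ Fr) (k : ℕ), SkewPolynomial.coeff (c.sum fun i r =>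
          SkewPolynomial.CRingHom (R := Fr) r * SkewPolynomial.X ^ i) k = c k := by
        intro c k
        induction c using Finsupp.induction_linear with
        | zero => simp
        | add a b ha hb =>
          rw [Finsupp.sum_add_index' (by simp) (by simp [add_mul]), SkewPolynomial.coeff_add, ha, hb,
            Finsupp.add_apply]
        | single i r =>
          rw [Finsupp.sum_single_index (by simp), SkewPolynomial.CRingHom_eq_C,
            SkewPolynomial.C_mul_X_pow_eq_monomial, SkewPolynomial.coeff_monomial,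
            Finsupp.single_apply]
      constructor
      · intro c d hcd
        ext k
        rw [← e c k, ← e d k]
        exact congrArg (fun p => SkewPolynomial.coeff p k) hcd
      · intro p
        refine ⟨Finsupp.onFinset p.support p.coeff fun i hi =>
          SkewPolynomial.mem_support_iff.2 hi, ?_⟩
        ext k
        rw [e]; rfl
    · intro r
      rw [SkewPolynomial.CRingHom_eq_C, SkewPolynomial.CRingHom_eq_C, SkewPolynomial.CRingHom_eq_C,
        SkewPolynomial.C_mul_X_eq_monomial, ← SkewPolynomial.monomial_zero_left,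
        SkewPolynomial.X_mul_monomial]
      simp only [AddMonoidHom.zero_apply, map_zero, add_zero, zero_add]
      congr 1
  exact ⟨Fr, SkewPolynomial Fr, inferInstance, inferInstance, sh, 0, SkewPolynomial.CRingHom,
    SkewPolynomial.X, sh_surj, fun r s => by simp, hO, lsrc _ _ hO, not_LSRC⟩

end Pool.Agent.Results.MP_5f6a82_al.OreLSRC
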